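import Pool.Agent.L7h80.RC.StmB

/-! Project RD: SUB. -/

set_option autoImplicit false

namespace Pool.Agent.L7h46.RC

open MvPowerSeries Pool.Agent.L7h80.RC

/-- PART SUB. -/
theorem s_SUB : S_SUB := by
  intro n i0
  have hs : PowerSeries.HasSubst (X i0 : PS n) := PowerSeries.HasSubst.X i0
  refine ⟨fun F G => PowerSeries.subst_add hs F G, fun F G => PowerSeries.subst_mul hs F G, ?_, ?_⟩
  · intro F k hk
    ext e
    rw [coeff_pderiv, PowerSeries.coeff_subst_single, if_neg, zero_mul, map_zero]
    intro h
    have h1 := DFunLike.congr_fun h k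
    rw [Finsupp.add_apply, Finsupp.single_eq_same, Finsupp.single_eq_of_ne hk] at h1
    omega
  · intro F p hp hX hF hmem
    have h1 : PowerSeries.X ^ F.order.toNat * PowerSeries.divXPowOrder F = F :=
      PowerSeries.X_pow_order_mul_divXPowOrder
    have h2 := PowerSeries.Inv_divided_by_X_pow_order_rightInv hF
    rw [← h1, PowerSeries.subst_mul hs, PowerSeries.subst_pow hs, PowerSeries.subst_X hs] at hmem
    rcases hp.mem_or_mem hmem with h | h
    · exact hX (hp.mem_of_pow_mem _ h)
    · apply hp.ne_top
      rw [Ideal.eq_top_iff_one]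
      have h3 : PowerSeries.subst (X i0 : PS n) (PowerSeries.divXPowOrder F) *
          PowerSeries.subst (X i0 : PS n) (PowerSeries.Inv_divided_by_X_pow_order hF) = 1 := by
        rw [← PowerSeries.subst_mul hs, h2, ← map_one (PowerSeries.C (R := ℂ)),
          PowerSeries.subst_C, map_one]
      rw [← h3]
      exact p.mul_mem_right _ h

end Pool.Agent.L7h46.RC
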